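import Pool.Agent.Helper35.FitU.Chain
import Pool.Agent.Helper35.FitU.Final

/-!
# MP_783189_al: Fitting classes generated by one group with a composition series

Question Q1 (is the set of Fitting subclasses of `Fit(G)` finite for every group `G` with a
composition series?) is answered in the negative; the number of Fitting subclasses is not even
bounded by any cardinal, for groups `G` with a simple normal subgroup of index 2.
-/

set_option autoImplicit false

namespace Pool.Agent.Results.MP_783189_al.ChainsOfSubclasses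

universe u

/-- `H` has a composition series: a finite chain `1 = s 0 ≤ s 1 ≤ ... ≤ s n = H` in which every
`s i` is normal in `s (i + 1)` and every factor is a simple group. -/
def HasCompositionSeries (H : Type u) [Group H] : Prop :=
  ∃ (n : ℕ) (s : Fin (n + 1) → Subgroup H), s 0 = ⊥ ∧ s (Fin.last n) = ⊤ ∧
    ∀ i : Fin n, s i.castSucc ≤ s i.succ ∧
      ∃ _ : ((s i.castSucc).subgroupOf (s i.succ)).Normal,
        IsSimpleGroup (↥(s i.succ) ⧸ (s i.castSucc).subgroupOf (s i.succ))

/-- A Fitting class: a class of groups with composition series which contains the trivial groups,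
is closed under isomorphism, under normal subgroups, and contains every group which is the
product of two normal subgroups in the class. -/
structure FittingClass where
  /-- membership -/
  mem : (H : Type u) → [Group H] → Prop
  series : ∀ (H : Type u) [Group H], mem H → HasCompositionSeries H
  one : ∀ (H : Type u) [Group H], Subsingleton H → mem H
  iso : ∀ (H K : Type u) [Group H] [Group K], H ≃* K → mem H → mem K
  normal : ∀ (H : Type u) [Group H] (N : Subgroup H), N.Normal → mem H → mem ↥N
  prod : ∀ (H : Type u) [Group H] (N M : Subgroup H), N.Normal → M.Normal → N ⊔ M = ⊤ →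
    mem ↥N → mem ↥M → mem H

/-- `K` belongs to `Fit(G)`, the intersection of all Fitting classes containing `G`. -/
def InFit (G : Type u) [Group G] (K : Type u) [Group K] : Prop :=
  ∀ E : FittingClass.{u}, E.mem G → E.mem K

/-- `F` is a Fitting subclass of `Fit(G)`. -/
def Subclass (F : FittingClass.{u}) (G : Type u) [Group G] : Prop :=
  ∀ (K : Type u) [Group K], F.mem K → InFit G K

open Pool.Agent.Helper35.FitU

private theorem series_iff (H : Type u) [iH : Group H] : HasCompositionSeries H ↔ Cmp H iH :=
  ⟨fun h => cmp_of_chain h, fun h => h.chain⟩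

/-- The class of all groups with a composition series. -/
private def UU : FittingClass.{u} where
  mem H _ := HasCompositionSeries H
  series _ _ h := h
  one H iH h := (series_iff H).2 (Cmp.triv H iH h)
  iso H K _ _ e h := (series_iff K).2 (((series_iff H).1 h).iso e)
  normal H _ N hN h := by
    rw [series_iff] at h ⊢
    refine h.normal _ _ N.subtype N.subtype_injective ?_
    rw [Subgroup.range_subtype]
    exact hN
  prod H _ N M hN _ hNM h1 h2 := by
    rw [series_iff] at h1 h2 ⊢
    exact Cmp.prod N M hNM h1 h2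

private theorem closed_of (E : FittingClass.{u}) : Closed (fun H iH => @E.mem H iH) := by
  refine ⟨?_, ?_, ?_⟩
  · rintro H K iH iK ⟨e⟩ h
    exact E.iso H K e h
  · intro H iH N hN h
    exact E.normal H N hN h
  · intro H iH N M hN hM h1 h2
    refine E.prod _ (N.subgroupOf (N ⊔ M)) (M.subgroupOf (N ⊔ M)) (hN.subgroupOf _)
      (hM.subgroupOf _) ?_ ?_ ?_
    · rw [← Subgroup.subgroupOf_sup le_sup_left le_sup_right]
      exact Subgroup.subgroupOf_self _
    · exact E.iso _ _ (Subgroup.subgroupOfEquivOfLe le_sup_left).symm h1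
    · exact E.iso _ _ (Subgroup.subgroupOfEquivOfLe le_sup_right).symm h2

private theorem fc_one (κ : Cardinal.{u}) (H : Type u) [iH : Group H] (h : Subsingleton H) :
    FC κ H iH := by
  intro K _ hK _ x _
  have h1 : Nontrivial K := hK.toNontrivial
  obtain ⟨a, b, hab⟩ := h1
  exact absurd (Subtype.ext (Subsingleton.elim _ _)) hab

/-- The Fitting subclasses of `Fit(G)`. -/
private def Sub (κ : Cardinal.{u}) (hκ : Cardinal.aleph0 ≤ κ) (G : Type u) [Group G]
    (hG : HasCompositionSeries G) : FittingClass.{u} where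
  mem H iH := FC κ H iH ∧ InFit G H
  series H _ h := h.2 UU hG
  one H _ h := ⟨fc_one κ H h, fun E _ => E.one H h⟩
  iso H K iH iK e h := ⟨FC_iso κ H K iH iK ⟨e⟩ h.1, fun E hE => E.iso H K e (h.2 E hE)⟩
  normal H iH N hN h := ⟨FC_normal κ H iH N hN h.1, fun E hE => E.normal H N hN (h.2 E hE)⟩
  prod H iH N M hN hM hNM h1 h2 := by
    refine ⟨?_, fun E hE => E.prod H N M hN hM hNM (h1.2 E hE) (h2.2 E hE)⟩
    have h3 := FC_sup κ hκ H iH N M hN hM h1.1 h2.1
    rw [hNM] at h3
    exact FC_iso κ _ _ _ _ ⟨Subgroup.topEquiv⟩ h3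

private theorem index_two (I : Type u) [LinearOrder I] [WellFoundedLT I] [Nonempty I] :
    ∃ A : Subgroup ↥(G0 I), A.Normal ∧ IsSimpleGroup ↥A ∧ A.index = 2 := by
  have hAG : Alt (Om I) ≤ G0 I := le_sup_left
  have hinv := flip_mul_self (Sg : Set (B I × Bool))
  refine ⟨(Alt (Om I)).subgroupOf (G0 I), ?_, ?_, ?_⟩
  · constructor
    intro l hl m
    rw [Subgroup.mem_subgroupOf] at hl ⊢
    exact Alt_conj m hl
  · exact ((Subgroup.subgroupOfEquivOfLe hAG).isSimpleGroup_congr).mpr Alt_simple
  · rw [Subgroup.index_eq_two_iff]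
    refine ⟨⟨Pool.Agent.Helper35.FitU.flip Sg, g_mem_Ext _⟩, fun b => ?_⟩
    rw [Subgroup.mem_subgroupOf, Subgroup.mem_subgroupOf]
    have hb : ((b * (⟨Pool.Agent.Helper35.FitU.flip Sg, g_mem_Ext _⟩ : ↥(G0 I)) : ↥(G0 I)) : Equiv.Perm (Om I)) =
        b.1 * Pool.Agent.Helper35.FitU.flip Sg := rfl
    rw [hb]
    by_cases h1 : b.1 ∈ Alt (Om I)
    · right
      refine ⟨h1, fun h2 => flip_Sg_notMem (I := I) ?_⟩
      have h3 := (Alt (Om I)).mul_mem ((Alt (Om I)).inv_mem h1) h2
      rwa [inv_mul_cancel_left] at h3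
    · left
      refine ⟨?_, h1⟩
      rcases mem_Ext hinv b.2 with h2 | ⟨a, ha, h2⟩
      · exact absurd h2 h1
      · rw [h2, mul_assoc, hinv, mul_one]
        exact ha

private theorem series_of_index_two {G : Type u} [iG : Group G] {A : Subgroup G}
    (hA : A.Normal) (hs : IsSimpleGroup ↥A) (h2 : A.index = 2) : HasCompositionSeries G := by
  rw [series_iff]
  have h1 : Cmp (↥A) inferInstance := by
    refine Cmp.step _ _ (↥A) inferInstance (MonoidHom.id _) Function.surjective_id hs ?_
    have h3 : (MonoidHom.id ↥A).ker = ⊥ := (MonoidHom.ker_eq_bot_iff _).2 Function.injective_id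
    rw [h3]
    exact Cmp.triv _ _ inferInstance
  refine Cmp.step G iG (G ⧸ A) inferInstance (QuotientGroup.mk' A)
    (QuotientGroup.mk'_surjective A) ?_ (h1.iso (MulEquiv.subgroupCongr (QuotientGroup.ker_mk' A).symm))
  have : Fact (Nat.Prime 2) := ⟨Nat.prime_two⟩
  exact isSimpleGroup_of_prime_card (p := 2) h2

private theorem main (I : Type u) [LinearOrder I] [WellFoundedLT I] [Nonempty I] :
    ∃ (G : Type u) (_ : Group G), HasCompositionSeries G ∧
      (∃ A : Subgroup G, A.Normal ∧ IsSimpleGroup ↥A ∧ A.index = 2) ∧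
      ∃ F : I → FittingClass.{u}, (∀ i, Subclass (F i) G) ∧
        ∀ i j, i < j → (∀ (K : Type u) [Group K], (F i).mem K → (F j).mem K) ∧
          ∃ (K : Type u) (_ : Group K), (F j).mem K ∧ ¬ (F i).mem K := by
  obtain ⟨A, hA, hs, h2⟩ := index_two I
  have hG : HasCompositionSeries ↥(G0 I) := series_of_index_two hA hs h2
  refine ⟨↥(G0 I), inferInstance, hG, ⟨A, hA, hs, h2⟩,
    fun i => Sub (kap i) (aleph0_le_kap i) ↥(G0 I) hG, fun i K _ h => h.2, ?_⟩
  intro i j hij
  refine ⟨fun K iK h => ⟨FC_mono (kap_lt hij).le K iK h.1, h.2⟩, ?_⟩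
  refine ⟨↥(Ext (flip (Sh j))), inferInstance, ⟨(sep hij).1, ?_⟩, fun h => (sep hij).2 h.1⟩
  intro E hE
  exact gen_small j _ (closed_of E) hE

/-- (1) There is a group `G` with a composition series such that `Fit(G)` has infinitely many
Fitting subclasses.  (2) For every nonempty well-ordered set `I` there is a group `G` with a simple
normal subgroup of index 2 and a strictly increasing family, indexed by `I`, of Fitting subclasses
of `Fit(G)`. -/
theorem result :
    (∃ (G : Type u) (_ : Group G), HasCompositionSeries G ∧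
      Set.Infinite {F : FittingClass.{u} | Subclass F G}) ∧
    (∀ (I : Type u) [LinearOrder I] [WellFoundedLT I] [Nonempty I],
      ∃ (G : Type u) (_ : Group G), HasCompositionSeries G ∧
        (∃ A : Subgroup G, A.Normal ∧ IsSimpleGroup ↥A ∧ A.index = 2) ∧
        ∃ F : I → FittingClass.{u}, (∀ i, Subclass (F i) G) ∧
          ∀ i j, i < j → (∀ (K : Type u) [Group K], (F i).mem K → (F j).mem K) ∧
            ∃ (K : Type u) (_ : Group K), (F j).mem K ∧ ¬ (F i).mem K) := by
  refine ⟨?_, fun I _ _ _ => main I⟩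
  obtain ⟨G, iG, hG, _, F, hF, hlt⟩ := main (ULift.{u} ℕ)
  refine ⟨G, iG, hG, ?_⟩
  refine Set.infinite_of_injective_forall_mem (f := fun n : ℕ => F (ULift.up n)) ?_
    (fun n => hF _)
  have key : ∀ n m : ℕ, n < m → F (ULift.up n) ≠ F (ULift.up m) := by
    intro n m hnm heq
    obtain ⟨_, K, iK, h1, h2⟩ := hlt (ULift.up n) (ULift.up m) hnm
    rw [heq] at h2
    exact h2 h1
  intro n m h
  rcases lt_trichotomy n m with h1 | h1 | h1
  · exact absurd h (key n m h1)
  · exact h1
  · exact absurd h.symm (key m n h1)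

end Pool.Agent.Results.MP_783189_al.ChainsOfSubclasses
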